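import Pool.Agent.D0H83.AC.Stm3

set_option autoImplicit false

/-! Project AC, module E1 CHEB: polynomial approximation of `log (x + δ)` on `[0, K]`. -/

open Polynomial Finset

namespace Pool.Agent.D0H52.AC

open Pool.Agent.D0H83.AC

/-- `log (1 - 2 ρ cos θ + ρ²) = -2 ∑ ρ^j cos (j θ) / j` -/
theorem hasSum_log (ρ θ : ℝ) (h0 : 0 < ρ) (h1 : ρ < 1) :
    HasSum (fun j : ℕ => -2 * (ρ ^ j * Real.cos (j * θ) / j))
      (Real.log (1 + ρ ^ 2 - 2 * ρ * Real.cos θ)) := by
  set z : ℂ := ρ * Complex.exp (θ * Complex.I) with hz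
  have hnorm : ‖z‖ = ρ := by
    rw [hz, norm_mul, Complex.norm_exp_ofReal_mul_I, mul_one, Complex.norm_real, Real.norm_eq_abs,
      abs_of_pos h0]
  have hs := Complex.hasSum_re (Complex.hasSum_taylorSeries_neg_log (z := z) (by rw [hnorm]; exact h1))
  have hpow : ∀ j : ℕ, (z ^ j / j).re = ρ ^ j * Real.cos (j * θ) / j := by
    intro j
    have e1 : z ^ j = ((ρ ^ j : ℝ) : ℂ) * Complex.exp (((j * θ : ℝ) : ℂ) * Complex.I) := by
      rw [hz, mul_pow, ← Complex.exp_nat_mul]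
      push_cast
      congr 2
      ring
    rw [e1, mul_div_assoc, Complex.re_ofReal_mul, Complex.div_natCast_re,
      Complex.exp_ofReal_mul_I_re]
    ring
  simp only [hpow] at hs
  have hre : (-Complex.log (1 - z)).re = -Real.log ‖1 - z‖ := by
    rw [Complex.neg_re, Complex.log_re]
  rw [hre] at hs
  have h2 := hs.mul_left (-2)
  have hsq : ‖1 - z‖ ^ 2 = 1 + ρ ^ 2 - 2 * ρ * Real.cos θ := by
    rw [← Complex.normSq_eq_norm_sq, Complex.normSq_apply]
    have e1 : z.re = ρ * Real.cos θ := by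
      rw [hz, Complex.re_ofReal_mul, Complex.exp_ofReal_mul_I_re]
    have e2 : z.im = ρ * Real.sin θ := by
      rw [hz, Complex.im_ofReal_mul, Complex.exp_ofReal_mul_I_im]
    rw [Complex.sub_re, Complex.sub_im, Complex.one_re, Complex.one_im, e1, e2]
    have := Real.sin_sq_add_cos_sq θ
    linear_combination (ρ ^ 2) * this
  have e : Real.log (1 + ρ ^ 2 - 2 * ρ * Real.cos θ) = -2 * -Real.log ‖1 - z‖ := by
    rw [← hsq, Real.log_pow]
    push_cast
    ring
  rw [e]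
  exact h2

/-- the rest of the series -/
theorem tail_le (ρ θ : ℝ) (h0 : 0 < ρ) (h1 : ρ < 1) (m : ℕ) :
    |∑ j ∈ range (m + 1), -2 * (ρ ^ j * Real.cos (j * θ) / j) -
      Real.log (1 + ρ ^ 2 - 2 * ρ * Real.cos θ)| ≤ 2 * ρ ^ (m + 1) / (1 - ρ) := by
  have hs := hasSum_log ρ θ h0 h1
  have ht := (hasSum_nat_add_iff' (m + 1)).2 hs
  have hg : HasSum (fun n : ℕ => 2 * ρ ^ (m + 1) * ρ ^ n) (2 * ρ ^ (m + 1) * (1 - ρ)⁻¹) :=
    (hasSum_geometric_of_lt_one h0.le h1).mul_left _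
  have hb : ‖∑' n : ℕ, -2 * (ρ ^ (n + (m + 1)) * Real.cos (((n + (m + 1) : ℕ) : ℝ) * θ) /
      ((n + (m + 1) : ℕ) : ℝ))‖ ≤ 2 * ρ ^ (m + 1) * (1 - ρ)⁻¹ := by
    refine tsum_of_norm_bounded hg fun n => ?_
    have hj : (1 : ℝ) ≤ ((n + (m + 1) : ℕ) : ℝ) := by
      have : 1 ≤ n + (m + 1) := by omega
      exact_mod_cast this
    have hc := Real.abs_cos_le_one (((n + (m + 1) : ℕ) : ℝ) * θ)
    have hp : 0 < ρ ^ (n + (m + 1)) := pow_pos h0 _
    rw [Real.norm_eq_abs, abs_mul, abs_div, abs_mul, abs_of_pos hp,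
      abs_of_pos (lt_of_lt_of_le one_pos hj), abs_neg, abs_two]
    calc 2 * (ρ ^ (n + (m + 1)) * |Real.cos (((n + (m + 1) : ℕ) : ℝ) * θ)| /
          ((n + (m + 1) : ℕ) : ℝ))
        ≤ 2 * (ρ ^ (n + (m + 1)) * 1 / 1) := by gcongr
      _ = 2 * ρ ^ (m + 1) * ρ ^ n := by rw [pow_add]; ring
  rw [ht.tsum_eq, Real.norm_eq_abs, abs_sub_comm] at hb
  rw [div_eq_mul_inv]
  exact hb

/-- MODULE E1 CHEB -/
theorem t_cheb : S_cheb := by
  intro K ρ m hK h0 h1
  refine ⟨C (Real.log (K / (4 * ρ))) + ∑ j ∈ range (m + 1), C (-2 * (ρ ^ j / j)) *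
    (Polynomial.Chebyshev.T ℝ (j : ℤ)).comp (C 1 - C (2 / K) * X), ?_, ?_⟩
  · refine (natDegree_add_le _ _).trans (max_le (by rw [natDegree_C]; exact Nat.zero_le _) ?_)
    refine natDegree_sum_le_of_forall_le _ _ fun j hj => ?_
    have hj' : j ≤ m := by
      have := mem_range.1 hj
      omega
    refine (natDegree_C_mul_le _ _).trans ?_
    have hlin : (C (1 : ℝ) - C (2 / K) * X).natDegree ≤ 1 := by
      refine (natDegree_sub_le _ _).trans (max_le (by rw [natDegree_C]; exact Nat.zero_le _) ?_)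
      exact (natDegree_C_mul_le _ _).trans natDegree_X_le
    refine natDegree_comp_le.trans ?_
    rw [Polynomial.Chebyshev.natDegree_T, Int.natAbs_natCast]
    calc j * (C (1 : ℝ) - C (2 / K) * X).natDegree ≤ j * 1 := Nat.mul_le_mul_left _ hlin
      _ ≤ m := by omega
  · intro x hx0 hxK
    set t : ℝ := 1 - 2 * x / K with ht
    have ht1 : t ≤ 1 := by
      have : 0 ≤ 2 * x / K := by positivity
      linarith
    have ht2 : -1 ≤ t := by
      have : 2 * x / K ≤ 2 := by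
        rw [div_le_iff₀ hK]
        linarith
      linarith
    have hcos : Real.cos (Real.arccos t) = t := Real.cos_arccos ht2 ht1
    have hpos : 0 < 1 + ρ ^ 2 - 2 * ρ * t := by
      have : 0 < (1 - ρ) ^ 2 := pow_pos (by linarith) 2
      nlinarith
    have hx : x + K * (1 - ρ) ^ 2 / (4 * ρ) = K / (4 * ρ) * (1 + ρ ^ 2 - 2 * ρ * t) := by
      rw [ht]
      field_simp
      ring
    have hlog : Real.log (x + K * (1 - ρ) ^ 2 / (4 * ρ)) =
        Real.log (K / (4 * ρ)) + Real.log (1 + ρ ^ 2 - 2 * ρ * t) := by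
      rw [hx, Real.log_mul (by positivity) hpos.ne']
    have heval : (C (Real.log (K / (4 * ρ))) + ∑ j ∈ range (m + 1), C (-2 * (ρ ^ j / j)) *
        (Polynomial.Chebyshev.T ℝ (j : ℤ)).comp (C 1 - C (2 / K) * X)).eval x =
        Real.log (K / (4 * ρ)) +
          ∑ j ∈ range (m + 1), -2 * (ρ ^ j * Real.cos (j * Real.arccos t) / j) := by
      rw [eval_add, eval_C, eval_finsetSum]
      congr 1
      refine Finset.sum_congr rfl fun j _ => ?_
      rw [eval_mul, eval_C, eval_comp, eval_sub, eval_mul, eval_C, eval_C, eval_X]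
      have e1 : (1 : ℝ) - 2 / K * x = Real.cos (Real.arccos t) := by
        rw [hcos, ht]
        ring
      rw [e1, Polynomial.Chebyshev.T_real_cos]
      push_cast
      ring
    rw [heval, hlog]
    have hb := tail_le ρ (Real.arccos t) h0 h1 m
    rw [hcos] at hb
    rw [add_sub_add_left_eq_sub]
    exact hb

end Pool.Agent.D0H52.AC
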