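import Pool.Agent.D0H52.AC.Red

set_option autoImplicit false

/-! Project AC, module CMP: torsion of the cokernels of a matrix and of the reduced matrix. -/

namespace Pool.Agent.D0H52.AC

open Matrix hiding gram
open Finset Pool.Agent.Q181.TG Pool.Agent.D0H83.AC Pool.Agent.D0H8.AC

section abstract

variable {A A' B B' : Type} [AddCommGroup A] [AddCommGroup A'] [AddCommGroup B] [AddCommGroup B']

theorem tc_congr (e : A ≃+ A') : tc A = tc A' := by
  unfold tc
  refine Nat.card_congr ⟨fun x => ⟨e x.1, e.toAddMonoidHom.isOfFinAddOrder x.2⟩,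
    fun y => ⟨e.symm y.1, e.symm.toAddMonoidHom.isOfFinAddOrder y.2⟩, ?_, ?_⟩
  · intro x
    exact Subtype.ext (e.symm_apply_apply x.1)
  · intro y
    exact Subtype.ext (e.apply_symm_apply y.1)

/-- the map of the cokernels -/
def psi (F : A →ₗ[ℤ] A') (U : Submodule ℤ A) (U' : Submodule ℤ A') (hFU : ∀ u ∈ U, F u ∈ U') :
    (U' ⧸ LinearMap.range (F.restrict hFU)) →ₗ[ℤ] (A' ⧸ LinearMap.range F) :=
  Submodule.mapQ _ _ U'.subtype (by
    rintro _ ⟨a, rfl⟩
    exact ⟨a, rfl⟩)

theorem psi_mk (F : A →ₗ[ℤ] A') (U : Submodule ℤ A) (U' : Submodule ℤ A')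
    (hFU : ∀ u ∈ U, F u ∈ U') (u : U') :
    psi F U U' hFU (Submodule.Quotient.mk u) = Submodule.Quotient.mk (u : A') := rfl

/-- the kernel is small -/
theorem ker_le (F : A →ₗ[ℤ] A') (F' : B →ₗ[ℤ] B') (s : A →ₗ[ℤ] B) (s' : A' →ₗ[ℤ] B')
    (hc : ∀ a, s' (F a) = F' (s a))
    (U : Submodule ℤ A) (hU : U = LinearMap.ker s) (U' : Submodule ℤ A')
    (hU' : U' = LinearMap.ker s') (hFU : ∀ u ∈ U, F u ∈ U') {Q : Type} [Finite Q] (χ : B → Q)
    (hχ : ∀ b b', χ b = χ b' → F' b = 0 → F' b' = 0 → ∃ v, F v = 0 ∧ s v = b - b') :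
    Finite (psi F U U' hFU).toAddMonoidHom.ker ∧
      Nat.card (psi F U U' hFU).toAddMonoidHom.ker ≤ Nat.card Q := by
  have hch : ∀ t : (psi F U U' hFU).toAddMonoidHom.ker, ∃ a : A, ∃ h : F a ∈ U',
      (Submodule.Quotient.mk ⟨F a, h⟩ : U' ⧸ LinearMap.range (F.restrict hFU)) = t.1 := by
    rintro ⟨t, ht⟩
    obtain ⟨u, rfl⟩ := Submodule.Quotient.mk_surjective _ t
    have h2 : (Submodule.Quotient.mk (u : A') : A' ⧸ LinearMap.range F) = 0 := ht
    rw [Submodule.Quotient.mk_eq_zero] at h2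
    obtain ⟨a, ha⟩ := h2
    refine ⟨a, ?_, ?_⟩
    · rw [ha]
      exact u.2
    · congr 1
      exact Subtype.ext ha
  choose a ha hat using hch
  have hinj : Function.Injective (fun t => χ (s (a t))) := by
    intro t t' htt'
    have hz : ∀ t, F' (s (a t)) = 0 := by
      intro t
      rw [← hc]
      have := ha t
      rw [hU', LinearMap.mem_ker] at this
      exact this
    obtain ⟨v, hv1, hv2⟩ := hχ _ _ htt' (hz t) (hz t')
    apply Subtype.ext
    rw [← hat t, ← hat t', Submodule.Quotient.eq]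
    have hmem : a t - a t' - v ∈ U := by
      rw [hU, LinearMap.mem_ker, map_sub, map_sub, hv2, sub_self]
    refine ⟨⟨a t - a t' - v, hmem⟩, ?_⟩
    apply Subtype.ext
    change F (a t - a t' - v) = F (a t) - F (a t')
    rw [map_sub, map_sub, hv1, sub_zero]
  exact ⟨Finite.of_injective _ hinj, Nat.card_le_card_of_injective _ hinj⟩

theorem lower2 [Module.Finite ℤ A'] (F : A →ₗ[ℤ] A') (U : Submodule ℤ A) (U' : Submodule ℤ A')
    (hFU : ∀ u ∈ U, F u ∈ U') (hk : Finite (psi F U U' hFU).toAddMonoidHom.ker) :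
    tc (U' ⧸ LinearMap.range (F.restrict hFU)) ≤
      tc (A' ⧸ LinearMap.range F) * Nat.card (psi F U U' hFU).toAddMonoidHom.ker := by
  have hT1 : Finite (AddCommGroup.torsion (A' ⧸ LinearMap.range F)) := finite_torsion _
  let g : AddCommGroup.torsion (U' ⧸ LinearMap.range (F.restrict hFU)) →+
      AddCommGroup.torsion (A' ⧸ LinearMap.range F) :=
    { toFun := fun x => ⟨psi F U U' hFU x.1,
        (psi F U U' hFU).toAddMonoidHom.isOfFinAddOrder x.2⟩
      map_zero' := Subtype.ext (map_zero (psi F U U' hFU))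
      map_add' := fun x y => Subtype.ext (map_add (psi F U U' hFU) x.1 y.1) }
  have h1 : Nat.card g.ker * g.ker.index = tc (U' ⧸ LinearMap.range (F.restrict hFU)) :=
    AddSubgroup.card_mul_index g.ker
  rw [← h1, AddSubgroup.index_ker, mul_comm]
  apply Nat.mul_le_mul
  · exact Nat.card_le_card_of_injective _ Subtype.val_injective
  · refine Nat.card_le_card_of_injective
      (fun t : g.ker => (⟨t.1.1, congrArg Subtype.val t.2⟩ :
        (psi F U U' hFU).toAddMonoidHom.ker)) ?_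
    intro t t' htt'
    apply Subtype.ext
    apply Subtype.ext
    exact congrArg (fun z : (psi F U U' hFU).toAddMonoidHom.ker => z.1) htt'

theorem upper2 [Module.Finite ℤ A'] [Module.Finite ℤ B'] (F : A →ₗ[ℤ] A') (F' : B →ₗ[ℤ] B')
    (s : A →ₗ[ℤ] B) (s' : A' →ₗ[ℤ] B') (hs : Function.Surjective s)
    (hc : ∀ a, s' (F a) = F' (s a)) (U : Submodule ℤ A) (U' : Submodule ℤ A')
    (hU' : U' = LinearMap.ker s') (hFU : ∀ u ∈ U, F u ∈ U')
    (hk : Finite (psi F U U' hFU).toAddMonoidHom.ker) :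
    tc (A' ⧸ LinearMap.range F) ≤
      tc (U' ⧸ LinearMap.range (F.restrict hFU)) * tc (B' ⧸ LinearMap.range F') := by
  have hle : LinearMap.range F ≤ (LinearMap.range F').comap s' := by
    rintro _ ⟨a, rfl⟩
    exact ⟨s a, (hc a).symm⟩
  let g : (A' ⧸ LinearMap.range F) →ₗ[ℤ] (B' ⧸ LinearMap.range F') := Submodule.mapQ _ _ s' hle
  have hT1 : Finite (AddCommGroup.torsion (A' ⧸ LinearMap.range F)) := finite_torsion _
  have hT2 : Finite (AddCommGroup.torsion (B' ⧸ LinearMap.range F')) := finite_torsion _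
  have hT3 : Finite (AddCommGroup.torsion (U' ⧸ LinearMap.range (F.restrict hFU))) :=
    finite_torsion _
  let gT : AddCommGroup.torsion (A' ⧸ LinearMap.range F) →+
      AddCommGroup.torsion (B' ⧸ LinearMap.range F') :=
    { toFun := fun x => ⟨g x.1, g.toAddMonoidHom.isOfFinAddOrder x.2⟩
      map_zero' := Subtype.ext (map_zero g)
      map_add' := fun x y => Subtype.ext (map_add g x.1 y.1) }
  have h1 : Nat.card gT.ker * gT.ker.index = tc (A' ⧸ LinearMap.range F) :=
    AddSubgroup.card_mul_index gT.ker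
  rw [← h1, AddSubgroup.index_ker]
  apply Nat.mul_le_mul
  · have hch : ∀ t : gT.ker, ∃ u : U',
        (Submodule.Quotient.mk (u : A') : A' ⧸ LinearMap.range F) = t.1.1 := by
      intro t
      obtain ⟨a, ha⟩ := Submodule.Quotient.mk_surjective _ t.1.1
      have h2 : g t.1.1 = 0 := congrArg Subtype.val t.2
      rw [← ha] at h2
      have h3 : (Submodule.Quotient.mk (s' a) : B' ⧸ LinearMap.range F') = 0 := h2
      rw [Submodule.Quotient.mk_eq_zero] at h3
      obtain ⟨b, hb⟩ := h3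
      obtain ⟨a', rfl⟩ := hs b
      rw [← hc] at hb
      refine ⟨⟨a - F a', ?_⟩, ?_⟩
      · rw [hU', LinearMap.mem_ker, map_sub, hb, sub_self]
      · rw [← ha, Submodule.Quotient.eq]
        exact ⟨-a', by simp⟩
    choose u hu using hch
    have htor : ∀ t, (Submodule.Quotient.mk (u t) : U' ⧸ LinearMap.range (F.restrict hFU)) ∈
        AddCommGroup.torsion (U' ⧸ LinearMap.range (F.restrict hFU)) := by
      intro t
      have h2 : IsOfFinAddOrder t.1.1 := t.1.2
      rw [isOfFinAddOrder_iff_nsmul_eq_zero] at h2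
      obtain ⟨n, hn, hn0⟩ := h2
      have h3 : n • (Submodule.Quotient.mk (u t) : U' ⧸ LinearMap.range (F.restrict hFU)) ∈
          (psi F U U' hFU).toAddMonoidHom.ker := by
        rw [AddMonoidHom.mem_ker, map_nsmul]
        change n • psi F U U' hFU (Submodule.Quotient.mk (u t)) = 0
        rw [psi_mk, hu t]
        exact hn0
      have h4 := isOfFinAddOrder_of_finite
        (⟨_, h3⟩ : (psi F U U' hFU).toAddMonoidHom.ker)
      rw [isOfFinAddOrder_iff_nsmul_eq_zero] at h4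
      obtain ⟨m, hm, hm0⟩ := h4
      change IsOfFinAddOrder _
      rw [isOfFinAddOrder_iff_nsmul_eq_zero]
      refine ⟨m * n, Nat.mul_pos hm hn, ?_⟩
      rw [mul_nsmul']
      exact congrArg Subtype.val hm0
    refine Nat.card_le_card_of_injective
      (fun t => (⟨Submodule.Quotient.mk (u t), htor t⟩ :
        AddCommGroup.torsion (U' ⧸ LinearMap.range (F.restrict hFU)))) ?_
    intro t t' htt'
    have htt2 := congrArg Subtype.val htt'
    simp only at htt2
    rw [Submodule.Quotient.eq] at htt2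
    obtain ⟨w, hw⟩ := htt2
    apply Subtype.ext
    apply Subtype.ext
    rw [← hu t, ← hu t', Submodule.Quotient.eq]
    refine ⟨w, ?_⟩
    have := congrArg Subtype.val hw
    exact this
  · exact Nat.card_le_card_of_injective _ Subtype.val_injective

end abstract

section conc

variable {X Y : Type} [Fintype X] [Fintype Y] {s r : ℕ} (o : X → Y) (ρ : Y → X)
  (M : Matrix (X × Fin s) (X × Fin r) ℤ)

open Classical in
/-- the quotient matrix -/
noncomputable def MYr (o : X → Y) (ρ : Y → X) (M : Matrix (X × Fin s) (X × Fin r) ℤ) :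
    Matrix (Y × Fin s) (Y × Fin r) ℤ := fun p q =>
  ∑ y with o y = q.1, M (ρ p.1, p.2) (y, q.2)

theorem sm_vecMul2 (hρ : ∀ b, o (ρ b) = b) (hL : Lump2 o M) (v : X × Fin s → ℤ) :
    sm o r ℤ (v ᵥ* M) = sm o s ℤ v ᵥ* MYr o ρ M := by
  classical
  funext ⟨b, j⟩
  rw [sm_apply]
  have h1 : ∀ x i, ∑ y with o y = b, M (x, i) (y, j) = MYr o ρ M (o x, i) (b, j) := by
    intro x i
    exact hL.1 x (ρ (o x)) i b j (hρ _).symm
  calc ∑ y with o y = b, (v ᵥ* M) (y, j)
      = ∑ y with o y = b, ∑ p : X × Fin s, v p * M p (y, j) := rfl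
    _ = ∑ p : X × Fin s, v p * ∑ y with o y = b, M p (y, j) := by
        rw [Finset.sum_comm]
        refine Finset.sum_congr rfl fun p _ => ?_
        rw [Finset.mul_sum]
    _ = ∑ x, ∑ i, v (x, i) * MYr o ρ M (o x, i) (b, j) := by
        rw [Fintype.sum_prod_type]
        refine Finset.sum_congr rfl fun x _ => Finset.sum_congr rfl fun i _ => ?_
        rw [h1]
    _ = ∑ b', ∑ x with o x = b', ∑ i, v (x, i) * MYr o ρ M (o x, i) (b, j) :=
        (Finset.sum_fiberwise Finset.univ o _).symm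
    _ = ∑ b', ∑ i, (sm o s ℤ v (b', i)) * MYr o ρ M (b', i) (b, j) := by
        refine Finset.sum_congr rfl fun b' _ => ?_
        rw [Finset.sum_comm]
        refine Finset.sum_congr rfl fun i _ => ?_
        rw [sm_apply, Finset.sum_mul]
        refine Finset.sum_congr rfl fun x hx => ?_
        rw [(Finset.mem_filter.mp hx).2]
    _ = (sm o s ℤ v ᵥ* MYr o ρ M) (b, j) := by
        change _ = ∑ p : Y × Fin s, _
        rw [Fintype.sum_prod_type]

theorem MYr_row (K : ℕ) (hK : ∀ p, ∑ q, (M p q).natAbs ≤ K) (p : Y × Fin s) :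
    ∑ q, (MYr o ρ M p q).natAbs ≤ K := by
  classical
  refine le_trans ?_ (hK (ρ p.1, p.2))
  rw [Fintype.sum_prod_type, Fintype.sum_prod_type, Finset.sum_comm]
  rw [Finset.sum_comm (s := (Finset.univ : Finset X))]
  refine Finset.sum_le_sum fun j _ => ?_
  rw [← Finset.sum_fiberwise Finset.univ o]
  refine Finset.sum_le_sum fun b _ => ?_
  exact Int.natAbs_sum_le _ _

open Classical in
theorem lift_ker2 (hρ : ∀ b, o (ρ b) = b) (hL : Lump2 o M) (k : Y × Fin s → ℤ)
    (hk : k ᵥ* MYr o ρ M = 0)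
    (hd : ∀ b i, ((#{x | o x = b} : ℕ) : ℤ) ∣ k (b, i)) :
    ∃ v : X × Fin s → ℤ, v ᵥ* M = 0 ∧ sm o s ℤ v = k := by
  choose c hc using hd
  let v : X × Fin s → ℤ := fun p => c (o p.1) p.2
  have hv : sm o s ℤ v = k := by
    funext ⟨b, i⟩
    rw [sm_apply, hc b i]
    have h1 : ∀ x ∈ (Finset.univ.filter fun x => o x = b), v (x, i) = c b i := by
      intro x hx
      change c (o x) i = _
      rw [(Finset.mem_filter.mp hx).2]
    rw [Finset.sum_congr rfl h1, Finset.sum_const, nsmul_eq_mul]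
  refine ⟨v, ?_, hv⟩
  have hconst : ∀ y y' j, o y = o y' → (v ᵥ* M) (y, j) = (v ᵥ* M) (y', j) := by
    intro y y' j hyy'
    have h1 : ∀ z, (v ᵥ* M) (z, j) = ∑ i, ∑ b, c b i * ∑ x with o x = b, M (x, i) (z, j) := by
      intro z
      change ∑ p : X × Fin s, v p * M p (z, j) = _
      rw [Fintype.sum_prod_type, Finset.sum_comm]
      refine Finset.sum_congr rfl fun i _ => ?_
      rw [← Finset.sum_fiberwise Finset.univ o]
      refine Finset.sum_congr rfl fun b _ => ?_
      rw [Finset.mul_sum]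
      refine Finset.sum_congr rfl fun x hx => ?_
      change c (o x) i * _ = _
      rw [(Finset.mem_filter.mp hx).2]
    rw [h1, h1]
    refine Finset.sum_congr rfl fun i _ => Finset.sum_congr rfl fun b _ => ?_
    rw [hL.2 y y' j b i hyy']
  have hsm : sm o r ℤ (v ᵥ* M) = 0 := by
    rw [sm_vecMul2 o ρ M hρ hL, hv, hk]
  funext ⟨y, j⟩
  have h2 := congrFun hsm (o y, j)
  rw [sm_apply] at h2
  have h3 : ∀ x ∈ (Finset.univ.filter fun x => o x = o y), (v ᵥ* M) (x, j) = (v ᵥ* M) (y, j) :=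
    fun x hx => hconst _ _ _ (Finset.mem_filter.mp hx).2
  rw [Finset.sum_congr rfl h3, Finset.sum_const, nsmul_eq_mul] at h2
  rcases mul_eq_zero.mp h2 with h4 | h4
  · exfalso
    have h5 : #(Finset.univ.filter fun x => o x = o y) = 0 := by exact_mod_cast h4
    rw [Finset.card_eq_zero] at h5
    have h6 : y ∈ (Finset.univ.filter fun x => o x = o y) :=
      Finset.mem_filter.mpr ⟨Finset.mem_univ _, rfl⟩
    rw [h5] at h6
    exact absurd h6 (Finset.notMem_empty _)
  · exact h4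

theorem tc_cok2 {α β : Type} [Fintype α] (M : Matrix α β ℤ) :
    tc (Cok M) = tc ((β → ℤ) ⧸ LinearMap.range M.vecMulLinear) := by
  unfold Cok
  rw [cok_range]

theorem tc_red (hρ : ∀ b, o (ρ b) = b)
    (h1 : ∀ f ∈ Zs o s ℤ, M.vecMulLinear f ∈ Zs o r ℤ) :
    tc (Zs o r ℤ ⧸ LinearMap.range (M.vecMulLinear.restrict h1)) = tc (Cok (Pool.Agent.D0H83.AC.red o ρ M)) := by
  classical
  rw [tc_cok2]
  refine tc_congr (Submodule.Quotient.equiv _ _ (eZ o hρ ℤ) ?_).toAddEquiv
  have h2 : (eZ o hρ ℤ).toLinearMap ∘ₗ M.vecMulLinear.restrict h1 =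
      (Pool.Agent.D0H83.AC.red o ρ M).vecMulLinear ∘ₗ (eZ o hρ ℤ).toLinearMap := by
    apply LinearMap.ext
    intro f
    funext q
    have h3 := vecMul_red o ρ M ℤ f.1 f.2 q
    simp only [Int.cast_id] at h3
    exact h3
  rw [← LinearMap.range_comp, h2, LinearMap.range_comp, LinearEquiv.range, Submodule.map_top]

end conc

theorem cmp : Pool.Agent.D0H83.AC.S_cmp := by
  classical
  intro X Y _ _ s r o ρ M K hK1 hρ hL hK
  have hU : Zs o s ℤ = LinearMap.ker (sm o s ℤ) := Zs_eq_ker o s ℤ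
  have hU' : Zs o r ℤ = LinearMap.ker (sm o r ℤ) := Zs_eq_ker o r ℤ
  have hc : ∀ a, sm o r ℤ (M.vecMulLinear a) = (MYr o ρ M).vecMulLinear (sm o s ℤ a) :=
    fun a => sm_vecMul2 o ρ M hρ hL a
  have hFU : ∀ u ∈ Zs o s ℤ, M.vecMulLinear u ∈ Zs o r ℤ := by
    intro u hu
    rw [hU, LinearMap.mem_ker] at hu
    rw [hU', LinearMap.mem_ker, hc, hu, map_zero]
  have hQfin : ∀ b, NeZero (#{x | o x = b}) := by
    intro b
    refine ⟨fun h => ?_⟩
    rw [Finset.card_eq_zero] at h
    have h6 : ρ b ∈ (Finset.univ.filter fun x => o x = b) :=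
      Finset.mem_filter.mpr ⟨Finset.mem_univ _, hρ b⟩
    rw [h] at h6
    exact absurd h6 (Finset.notMem_empty _)
  let Q : Type := ∀ p : Y × Fin s, ZMod (#{x | o x = p.1})
  have hQ : Nat.card Q = ∏ b : Y, (#{x | o x = b}) ^ s := by
    rw [Nat.card_pi, Fintype.prod_prod_type]
    refine Finset.prod_congr rfl fun b _ => ?_
    simp only [Nat.card_zmod, Finset.prod_const, Finset.card_univ, Fintype.card_fin]
  have hQf : Finite Q := Pi.finite
  let χ : (Y × Fin s → ℤ) → Q := fun k p => (k p : ZMod (#{x | o x = p.1}))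
  obtain ⟨hk1, hk2⟩ := ker_le M.vecMulLinear (MYr o ρ M).vecMulLinear (sm o s ℤ) (sm o r ℤ) hc
    (Zs o s ℤ) hU (Zs o r ℤ) hU' hFU χ
    (by
      intro b b' hbb' hb hb'
      obtain ⟨v, hv1, hv2⟩ := lift_ker2 o ρ M hρ hL (b - b') (by
        have h5 : (MYr o ρ M).vecMulLinear (b - b') = 0 := by rw [map_sub, hb, hb', sub_zero]
        exact h5) (by
        intro y i
        have h5 := congrFun hbb' (y, i)
        have h6 : ((b (y, i) : ℤ) : ZMod (#{x | o x = y})) = ((b' (y, i) : ℤ) : ZMod _) := h5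
        rw [Pi.sub_apply, ← ZMod.intCast_zmod_eq_zero_iff_dvd, Int.cast_sub, h6, sub_self])
      exact ⟨v, hv1, hv2⟩)
  have hred := tc_red o ρ M hρ hFU
  rw [tc_cok2 M]
  constructor
  · have h2 := upper2 M.vecMulLinear (MYr o ρ M).vecMulLinear (sm o s ℤ) (sm o r ℤ)
      (sm_surj o hρ) hc (Zs o s ℤ) (Zs o r ℤ) hU' hFU hk1
    rw [hred] at h2
    have h3 : tc ((Y × Fin r → ℤ) ⧸ LinearMap.range (MYr o ρ M).vecMulLinear) ≤
        K ^ (s * Fintype.card Y) := by
      rw [tc_eq_tO]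
      refine (Pool.Agent.Y692.FKT.tO_le (MYr o ρ M) K hK1 (MYr_row o ρ M K hK) ⊤).trans ?_
      rw [Fintype.card_prod, Fintype.card_fin, mul_comm]
    have h4 := h2.trans (Nat.mul_le_mul_left _ h3)
    exact_mod_cast h4
  · have h2 := lower2 M.vecMulLinear (Zs o s ℤ) (Zs o r ℤ) hFU hk1
    rw [hred] at h2
    rw [hQ] at hk2
    have h4 := h2.trans (Nat.mul_le_mul_left _ hk2)
    exact_mod_cast h4

end Pool.Agent.D0H52.AC
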