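import Mathlib

/-!
# AC: eigenvalues of `T* T` (helper52)
-/

set_option autoImplicit false

namespace Pool.Agent.D0H52.AC

open Matrix Finset

theorem det_adj {F : Type*} [NormedAddCommGroup F] [InnerProductSpace ℝ F] [FiniteDimensional ℝ F]
    (T : F →ₗ[ℝ] F) : LinearMap.det (LinearMap.adjoint T) = LinearMap.det T := by
  let v := stdOrthonormalBasis ℝ F
  rw [← LinearMap.det_toMatrix v.toBasis, ← LinearMap.det_toMatrix v.toBasis T,
    LinearMap.toMatrix_adjoint, Matrix.det_conjTranspose]
  simp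

theorem lemA {F : Type*} [NormedAddCommGroup F] [InnerProductSpace ℝ F] [FiniteDimensional ℝ F]
    (T : F →ₗ[ℝ] F) (n : ℕ) (hn : Module.finrank ℝ F = n) :
    ∃ (ν : Fin n → ℝ) (v : OrthonormalBasis (Fin n) ℝ F),
      (∀ k, LinearMap.adjoint T (T (v k)) = ν k • v k) ∧ (∀ k, ν k = ‖T (v k)‖ ^ 2) ∧
      (∀ f, ‖T f‖ ^ 2 = ∑ k, ν k * inner ℝ (v k) f ^ 2) ∧ ∏ k, ν k = LinearMap.det T ^ 2 := by
  have hS : (LinearMap.adjoint T * T).IsSymmetric := LinearMap.isSymmetric_adjoint_mul_self T
  have h1 : ∀ k, LinearMap.adjoint T (T (hS.eigenvectorBasis hn k)) =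
      hS.eigenvalues hn k • hS.eigenvectorBasis hn k := by
    intro k
    have := hS.apply_eigenvectorBasis hn k
    exact this
  refine ⟨hS.eigenvalues hn, hS.eigenvectorBasis hn, h1, ?_, ?_, ?_⟩
  · intro k
    have h2 : inner ℝ (hS.eigenvectorBasis hn k) (LinearMap.adjoint T (T (hS.eigenvectorBasis hn k))) =
        hS.eigenvalues hn k := by
      rw [h1 k, inner_smul_right, real_inner_self_eq_norm_sq,
        (hS.eigenvectorBasis hn).orthonormal.1 k]
      simp
    rw [LinearMap.adjoint_inner_right, real_inner_self_eq_norm_sq] at h2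
    exact h2.symm
  · intro f
    have h2 : ‖T f‖ ^ 2 = inner ℝ f (LinearMap.adjoint T (T f)) := by
      rw [LinearMap.adjoint_inner_right, real_inner_self_eq_norm_sq]
    rw [h2, ← OrthonormalBasis.sum_inner_mul_inner (hS.eigenvectorBasis hn)]
    apply Finset.sum_congr rfl
    intro k _
    have h3 : inner ℝ (hS.eigenvectorBasis hn k) (LinearMap.adjoint T (T f)) =
        hS.eigenvalues hn k * inner ℝ (hS.eigenvectorBasis hn k) f := by
      have h4 := hS (hS.eigenvectorBasis hn k) f
      have h5 : inner ℝ (hS.eigenvectorBasis hn k) ((LinearMap.adjoint T * T) f) =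
          inner ℝ (LinearMap.adjoint T (T (hS.eigenvectorBasis hn k))) f := h4.symm
      have h6 : (LinearMap.adjoint T * T) f = LinearMap.adjoint T (T f) := rfl
      rw [← h6, h5, h1 k, real_inner_smul_left]
    rw [h3, real_inner_comm]
    ring
  · have h2 : LinearMap.det (LinearMap.adjoint T * T) = LinearMap.det T ^ 2 := by
      rw [map_mul, det_adj]
      ring
    rw [← h2, ← LinearMap.det_toMatrix (hS.eigenvectorBasis hn).toBasis]
    have h3 : LinearMap.toMatrix (hS.eigenvectorBasis hn).toBasis (hS.eigenvectorBasis hn).toBasis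
        (LinearMap.adjoint T * T) = Matrix.diagonal (hS.eigenvalues hn) := by
      ext i j
      rw [LinearMap.toMatrix_apply]
      have h4 : (LinearMap.adjoint T * T) ((hS.eigenvectorBasis hn).toBasis j) =
          hS.eigenvalues hn j • (hS.eigenvectorBasis hn).toBasis j := by
        rw [OrthonormalBasis.coe_toBasis]
        exact h1 j
      rw [h4, map_smul, Module.Basis.repr_self, Finsupp.smul_single, smul_eq_mul, mul_one,
        Matrix.diagonal_apply, Finsupp.single_apply]
      by_cases h : i = j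
      · rw [if_pos h.symm, if_pos h, h]
      · rw [if_neg (fun h' => h h'.symm), if_neg h]
    rw [h3, Matrix.det_diagonal]

/-- restriction and adjoint -/
theorem res_adj {E : Type*} [NormedAddCommGroup E] [InnerProductSpace ℝ E] [FiniteDimensional ℝ E]
    (T Ts : E →ₗ[ℝ] E) (hadj : ∀ x y, inner ℝ (Ts x) y = inner ℝ x (T y)) (H : Submodule ℝ E)
    (h1 : ∀ x ∈ H, T x ∈ H) (h2 : ∀ x ∈ H, Ts x ∈ H) (x : H) :
    ((LinearMap.adjoint (T.restrict h1) x : H) : E) = Ts x := by
  have h3 : Ts.restrict h2 = LinearMap.adjoint (T.restrict h1) := by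
    rw [LinearMap.eq_adjoint_iff]
    intro x y
    exact hadj x y
  rw [← h3]
  rfl

end Pool.Agent.D0H52.AC
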