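import Pool.Agent.D0H83.AC.Stm
import Pool.Agent.D0H52.AC.EigA

/-!
# AC 7: eigenvalues on an invariant subspace and on its complement (helper52)
-/

set_option autoImplicit false

namespace Pool.Agent.D0H52.AC

open Matrix Finset
open Pool.Agent.D0H83.AC

theorem vm_pow {N : Type} [Fintype N] [DecidableEq N] (A : Matrix N N ℝ) (f : N → ℝ) (c : ℝ)
    (h : f ᵥ* A = c • f) (k : ℕ) : f ᵥ* (A ^ k) = c ^ k • f := by
  induction k with
  | zero => simp
  | succ k ih =>
    rw [pow_succ, ← Matrix.vecMul_vecMul, ih, Matrix.smul_vecMul, h, smul_smul, pow_succ]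

/-- the trace from a basis of eigenvectors -/
theorem trace_pow {N : Type} [Fintype N] [DecidableEq N] (M : Matrix N N ℝ) {ι : Type} [Fintype ι]
    [DecidableEq ι] (b : Module.Basis ι ℝ (N → ℝ)) (lam : ι → ℝ)
    (h : ∀ i, b i ᵥ* (M * Mᵀ) = lam i • b i) (k : ℕ) :
    ((M * Mᵀ) ^ k).trace = ∑ i, lam i ^ k := by
  have hsym : ((M * Mᵀ) ^ k)ᵀ = (M * Mᵀ) ^ k := by
    rw [Matrix.transpose_pow, Matrix.transpose_mul, Matrix.transpose_transpose]
  have h1 : ∀ f : N → ℝ, Matrix.toLin' ((M * Mᵀ) ^ k) f = f ᵥ* ((M * Mᵀ) ^ k) := by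
    intro f
    rw [Matrix.toLin'_apply, ← Matrix.vecMul_transpose, hsym]
  rw [← Matrix.trace_toLin'_eq, LinearMap.trace_eq_matrix_trace ℝ b, Matrix.trace]
  apply Finset.sum_congr rfl
  intro i _
  rw [Matrix.diag_apply, LinearMap.toMatrix_apply, h1, vm_pow _ _ _ (h i) k, map_smul,
    Module.Basis.repr_self, Finsupp.smul_single, smul_eq_mul, mul_one, Finsupp.single_eq_same]

theorem eig : S_eig := by
  intro N _ _ M H h1 h2
  classical
  let E := EuclideanSpace ℝ N
  let e : E ≃ₗ[ℝ] (N → ℝ) := WithLp.linearEquiv 2 ℝ (N → ℝ)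
  let T : E →ₗ[ℝ] E := e.symm.toLinearMap ∘ₗ M.vecMulLinear ∘ₗ e.toLinearMap
  let Ts : E →ₗ[ℝ] E := e.symm.toLinearMap ∘ₗ Mᵀ.vecMulLinear ∘ₗ e.toLinearMap
  have hinner : ∀ x y : E, inner ℝ x y = e y ⬝ᵥ e x := by
    intro x y
    rw [EuclideanSpace.inner_eq_star_dotProduct]
    simp [e]
    rfl
  have hnorm : ∀ x : E, ‖x‖ ^ 2 = ∑ q, (e x) q ^ 2 := by
    intro x
    rw [← real_inner_self_eq_norm_sq, hinner, dotProduct]
    apply Finset.sum_congr rfl
    intro q _
    ring
  have heT : ∀ x, e (T x) = e x ᵥ* M := by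
    intro x
    simp [T]
  have heTs : ∀ x, e (Ts x) = e x ᵥ* Mᵀ := by
    intro x
    simp [Ts]
    exact (Matrix.vecMul_transpose _ _).symm
  have hadj : ∀ x y, inner ℝ (Ts x) y = inner ℝ x (T y) := by
    intro x y
    rw [hinner, hinner, heTs, heT, Matrix.vecMul_transpose, Matrix.dotProduct_mulVec]
  have hadj' : ∀ x y, inner ℝ (T x) y = inner ℝ x (Ts y) := by
    intro x y
    rw [real_inner_comm, ← hadj, real_inner_comm]
  -- the subspace
  let H' : Submodule ℝ E := H.comap e.toLinearMap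
  have hH' : ∀ x, x ∈ H' ↔ e x ∈ H := fun x => Iff.rfl
  have hT : ∀ x ∈ H', T x ∈ H' := by
    intro x hx
    rw [hH', heT]
    exact h1 _ hx
  have hTs : ∀ x ∈ H', Ts x ∈ H' := by
    intro x hx
    rw [hH', heTs]
    exact h2 _ hx
  have hTo : ∀ x ∈ H'ᗮ, T x ∈ H'ᗮ := by
    intro x hx
    rw [Submodule.mem_orthogonal]
    intro u hu
    rw [← hadj]
    exact (Submodule.mem_orthogonal _ _).1 hx _ (hTs u hu)
  have hTso : ∀ x ∈ H'ᗮ, Ts x ∈ H'ᗮ := by
    intro x hx
    rw [Submodule.mem_orthogonal]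
    intro u hu
    rw [← hadj']
    exact (Submodule.mem_orthogonal _ _).1 hx _ (hT u hu)
  obtain ⟨ν, v, hv1, hv2, hv3, hv4⟩ := lemA (T.restrict hT) _ rfl
  obtain ⟨μ, w, hw1, hw2, hw3, hw4⟩ := lemA (T.restrict hTo) _ rfl
  -- eigenvectors in E
  have hev : ∀ k, Ts (T (v k : E)) = ν k • (v k : E) := by
    intro k
    have h := congrArg (fun x : H' => (x : E)) (hv1 k)
    simp only at h
    rw [res_adj T Ts hadj H' hT hTs] at h
    exact h
  have hew : ∀ k, Ts (T (w k : E)) = μ k • (w k : E) := by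
    intro k
    have h := congrArg (fun x : H'ᗮ => (x : E)) (hw1 k)
    simp only at h
    rw [res_adj T Ts hadj H'ᗮ hTo hTso] at h
    exact h
  have heig : ∀ x : E, ∀ c : ℝ, Ts (T x) = c • x → e x ᵥ* (M * Mᵀ) = c • e x := by
    intro x c h
    rw [← Matrix.vecMul_vecMul, ← heT, ← heTs, h, map_smul]
  let eH : H' ≃ₗ[ℝ] H := e.ofSubmodule' H
  have hfin : Module.finrank ℝ H' = Module.finrank ℝ H := eH.finrank_eq
  have hfin2 : Module.finrank ℝ H' + Module.finrank ℝ H'ᗮ = Fintype.card N := by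
    rw [Submodule.finrank_add_finrank_orthogonal]
    exact finrank_euclideanSpace
  refine ⟨Module.finrank ℝ H', Module.finrank ℝ H'ᗮ, ν, μ, hfin, hfin2, ?_, ?_, ?_, ?_, ?_, ?_⟩
  · intro k
    rw [hv2]
    positivity
  · intro k
    rw [hw2]
    positivity
  · intro K hK
    have hK' : ∀ x : E, ‖T x‖ ^ 2 ≤ K * ‖x‖ ^ 2 := by
      intro x
      rw [hnorm, hnorm, heT]
      exact hK (e x)
    constructor
    · intro k
      rw [hv2]
      have h3 := hK' (v k : E)
      have h4 : ‖(v k : E)‖ = 1 := v.orthonormal.1 k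
      rw [h4] at h3
      have h5 : ‖(T.restrict hT) (v k)‖ = ‖T (v k : E)‖ := rfl
      rw [h5]
      linarith
    · intro k
      rw [hw2]
      have h3 := hK' (w k : E)
      have h4 : ‖(w k : E)‖ = 1 := w.orthonormal.1 k
      rw [h4] at h3
      have h5 : ‖(T.restrict hTo) (w k)‖ = ‖T (w k : E)‖ := rfl
      rw [h5]
      linarith
  · intro k
    let b0 := v.toBasis.prod w.toBasis
    let b1 := b0.map (Submodule.prodEquivOfIsCompl H' H'ᗮ (Submodule.isCompl_orthogonal H'))
    let b := b1.map e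
    have hb1 : ∀ i, b (Sum.inl i) = e (v i : E) := by
      intro i
      simp [b, b1, b0]
    have hb2 : ∀ i, b (Sum.inr i) = e (w i : E) := by
      intro i
      simp [b, b1, b0]
    have := trace_pow M b (Sum.elim ν μ) (by
      rintro (i | i)
      · rw [hb1]
        exact heig _ _ (hev i)
      · rw [hb2]
        exact heig _ _ (hew i)) k
    rw [this, Fintype.sum_sum_type]
    rfl
  · rw [hv4]
    congr 1
    have h3 : M.vecMulLinear.restrict h1 = eH.toLinearMap ∘ₗ (T.restrict hT) ∘ₗ eH.symm.toLinearMap := by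
      apply LinearMap.ext
      intro x
      apply Subtype.ext
      have h4 : ((eH ((T.restrict hT) (eH.symm x)) : H) : N → ℝ) = e (T ((eH.symm x : H') : E)) := rfl
      have h5 : e ((eH.symm x : H') : E) = (x : N → ℝ) := by
        have : ((eH (eH.symm x) : H) : N → ℝ) = e ((eH.symm x : H') : E) := rfl
        rw [← this, LinearEquiv.apply_symm_apply]
      have h6 : ((M.vecMulLinear.restrict h1 x : H) : N → ℝ) = (x : N → ℝ) ᵥ* M := rfl
      rw [h6, ← h5, ← heT]
      rfl
    rw [h3, LinearMap.det_conj]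
  · intro c W hWH hW
    -- an injective map
    let φ : W →ₗ[ℝ] ({k : Fin (Module.finrank ℝ H') // ¬ ν k < c} → ℝ) :=
      LinearMap.pi fun k => ((innerSL ℝ (v k.1 : E)).toLinearMap ∘ₗ e.symm.toLinearMap) ∘ₗ W.subtype
    have hφ : ∀ (f : W) k, φ f k = inner ℝ (v k.1 : E) (e.symm (f : N → ℝ)) := fun f k => rfl
    have hinj : Function.Injective φ := by
      rw [← LinearMap.ker_eq_bot, LinearMap.ker_eq_bot']
      intro f hf
      have hfH : e.symm (f : N → ℝ) ∈ H' := by
        rw [hH', LinearEquiv.apply_symm_apply]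
        exact hWH f.2
      set g : H' := ⟨e.symm (f : N → ℝ), hfH⟩ with hg
      have hg0 : ∀ k, ¬ ν k < c → inner ℝ (v k) g = 0 := by
        intro k hk
        have := congrFun hf ⟨k, hk⟩
        rw [hφ] at this
        exact this
      have h3 := hW f f.2
      have h4 : ∑ q, (f : N → ℝ) q ^ 2 = ‖g‖ ^ 2 := by
        have : ‖g‖ = ‖(e.symm (f : N → ℝ) : E)‖ := rfl
        rw [this, hnorm, LinearEquiv.apply_symm_apply]
      have h5 : ∑ q, ((f : N → ℝ) ᵥ* M) q ^ 2 = ‖(T.restrict hT) g‖ ^ 2 := by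
        have : ‖(T.restrict hT) g‖ = ‖T (e.symm (f : N → ℝ) : E)‖ := rfl
        rw [this, hnorm, heT, LinearEquiv.apply_symm_apply]
      rw [h4, h5, hv3 g] at h3
      have h6 : ‖g‖ ^ 2 = ∑ k, inner ℝ (v k) g ^ 2 := by
        rw [← real_inner_self_eq_norm_sq, ← OrthonormalBasis.sum_inner_mul_inner v]
        apply Finset.sum_congr rfl
        intro k _
        rw [real_inner_comm]
        ring
      rw [h6, Finset.mul_sum] at h3
      have h7 : ∀ k ∈ (univ : Finset (Fin (Module.finrank ℝ H'))),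
          0 ≤ c * inner ℝ (v k) g ^ 2 - ν k * inner ℝ (v k) g ^ 2 := by
        intro k _
        by_cases hk : ν k < c
        · have : 0 ≤ (c - ν k) * inner ℝ (v k) g ^ 2 := mul_nonneg (by linarith) (sq_nonneg _)
          linarith
        · rw [hg0 k hk]
          simp
      have h8 : ∑ k, (c * inner ℝ (v k) g ^ 2 - ν k * inner ℝ (v k) g ^ 2) = 0 := by
        apply le_antisymm
        · rw [Finset.sum_sub_distrib]
          linarith
        · exact Finset.sum_nonneg h7
      rw [Finset.sum_eq_zero_iff_of_nonneg h7] at h8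
      have h9 : ∀ k, inner ℝ (v k) g = 0 := by
        intro k
        by_cases hk : ν k < c
        · have h10 := h8 k (Finset.mem_univ k)
          have h11 : (c - ν k) * inner ℝ (v k) g ^ 2 = 0 := by linarith
          have h12 := (mul_eq_zero.1 h11).resolve_left (by linarith)
          exact pow_eq_zero_iff (two_ne_zero) |>.1 h12
        · exact hg0 k hk
      have h10 : g = 0 := by
        have : ‖g‖ ^ 2 = 0 := by
          rw [h6]
          apply Finset.sum_eq_zero
          intro k _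
          rw [h9 k]
          simp
        exact norm_eq_zero.1 (pow_eq_zero_iff (two_ne_zero) |>.1 this)
      have h11 : e.symm (f : N → ℝ) = 0 := congrArg (fun x : H' => (x : E)) h10
      have h12 : (f : N → ℝ) = 0 := by
        rw [← LinearEquiv.apply_symm_apply e (f : N → ℝ), h11, map_zero]
      exact Subtype.ext h12
    have h3 := LinearMap.finrank_le_finrank_of_injective hinj
    rw [Module.finrank_fintype_fun_eq_card, Fintype.card_subtype] at h3
    have h4 := Finset.card_filter_add_card_filter_not (s := (univ : Finset (Fin (Module.finrank ℝ H'))))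
      (fun k => ν k < c)
    rw [Finset.card_univ, Fintype.card_fin] at h4
    omega

end Pool.Agent.D0H52.AC
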