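import Pool.Agent.D0H83.AC.Stm

/-!
# AC 3: Poincaré inequality for a finite `G`-set (helper52)
-/

set_option autoImplicit false

namespace Pool.Agent.D0H52.AC

open Finset
open Pool.Agent.D0H83.AC

section
variable {G : Type} [Group G] (T : Finset G) (X : Type) [MulAction G X]

/-- the fibre -/
abbrev Ob (b : MulAction.orbitRel.Quotient (Subgroup.closure (T : Set G)) X) : Type :=
  {x : X // ob (Subgroup.closure (T : Set G)) X x = b}

/-- the graph on an orbit -/
def Gr (b : MulAction.orbitRel.Quotient (Subgroup.closure (T : Set G)) X) : SimpleGraph (Ob T X b) :=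
  SimpleGraph.fromRel (fun x y => ∃ t ∈ T, t • x.1 = y.1)

theorem ob_eq_iff (Λ : Subgroup G) (x y : X) : ob Λ X x = ob Λ X y ↔ ∃ g ∈ Λ, g • x = y := by
  unfold ob
  rw [eq_comm, Quotient.eq]
  constructor
  · intro h
    obtain ⟨g, hg⟩ := MulAction.orbitRel_apply.1 h
    exact ⟨g.1, g.2, hg⟩
  · rintro ⟨g, hg, h⟩
    exact MulAction.orbitRel_apply.2 ⟨⟨g, hg⟩, h⟩

theorem gr_reach (b : MulAction.orbitRel.Quotient (Subgroup.closure (T : Set G)) X) :
    ∀ g ∈ Subgroup.closure (T : Set G), ∀ x y : Ob T X b, g • x.1 = y.1 → (Gr T X b).Reachable x y := by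
  intro g hg
  induction hg using Subgroup.closure_induction with
  | mem g hg =>
    intro x y h
    by_cases hxy : x = y
    · rw [hxy]
    · apply SimpleGraph.Adj.reachable
      rw [Gr, SimpleGraph.fromRel_adj]
      exact ⟨hxy, Or.inl ⟨g, hg, h⟩⟩
  | one =>
    intro x y h
    rw [one_smul] at h
    rw [Subtype.ext h]
  | mul g h hg hh ih1 ih2 =>
    intro x y hxy
    have h1 : ob (Subgroup.closure (T : Set G)) X (h • x.1) = b := by
      exact ((ob_eq_iff X _ _ _).2 ⟨h, hh, rfl⟩).symm.trans x.2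
    refine (ih2 x ⟨h • x.1, h1⟩ rfl).trans (ih1 ⟨h • x.1, h1⟩ y ?_)
    rw [← hxy, mul_smul]
  | inv g hg ih =>
    intro x y h
    apply SimpleGraph.Reachable.symm
    apply ih
    rw [← h, smul_inv_smul]

theorem gr_conn (b : MulAction.orbitRel.Quotient (Subgroup.closure (T : Set G)) X) :
    (Gr T X b).Connected := by
  rw [SimpleGraph.connected_iff]
  constructor
  · intro x y
    have h : ob (Subgroup.closure (T : Set G)) X x.1 = ob (Subgroup.closure (T : Set G)) X y.1 := by
      rw [x.2, y.2]
    rw [ob_eq_iff] at h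
    obtain ⟨g, hg, hxy⟩ := h
    exact gr_reach T X b g hg x y hxy
  · obtain ⟨x, hx⟩ := Quotient.exists_rep b
    exact ⟨⟨x, hx⟩⟩

end

theorem glb (hO : S_orb) : S_glb := by
  intro G _ T X _ _ L hL
  classical
  have : Fintype (MulAction.orbitRel.Quotient (Subgroup.closure (T : Set G)) X) :=
    Fintype.ofSurjective (ob (Subgroup.closure (T : Set G)) X) (Quotient.mk_surjective)
  choose k φ hk hφ using fun b => hO (Ob T X b) (Gr T X b) (gr_conn T X b) L hL
  let K := Fintype.card (Σ b, Fin (k b))
  let e : Fin K ≃ (Σ b, Fin (k b)) := (Fintype.equivFin _).symm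
  refine ⟨K, fun j => φ (e j).1 (e j).2 ∘ₗ LinearMap.funLeft ℝ ℝ (Subtype.val : Ob T X (e j).1 → X),
    ?_, ?_⟩
  · have h1 : K = ∑ b, k b := by
      simp [K, Fintype.card_sigma]
    have h2 : Fintype.card X = ∑ b, Fintype.card (Ob T X b) := by
      rw [← Fintype.card_sigma]
      exact Fintype.card_congr (Equiv.sigmaFiberEquiv (ob (Subgroup.closure (T : Set G)) X)).symm
    rw [h1, h2, Finset.sum_mul, Finset.mul_sum]
    exact Finset.sum_le_sum fun b _ => hk b
  · intro f hf0 hf
    have hsum : ∀ F : X → ℝ, ∑ x, F x = ∑ b, ∑ x : Ob T X b, F x.1 := by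
      intro F
      rw [← Fintype.sum_sigma' (fun b (x : Ob T X b) => F x.1)]
      rw [← (Equiv.sigmaFiberEquiv (ob (Subgroup.closure (T : Set G)) X)).sum_comp]
      rfl
    have hW : ∀ b, ∑ x : Ob T X b, f x.1 ^ 2 ≤ 4 * (L : ℝ) ^ 2 *
        ∑ x : Ob T X b, ∑ y : Ob T X b, if (Gr T X b).Adj x y then (f x.1 - f y.1) ^ 2 else 0 := by
      intro b
      have h1 := hφ b (fun x => f x.1) ?_ ?_
      · exact h1
      · have h2 := hf0 b
        rw [← h2]
        rw [Finset.sum_subtype (p := fun x => ob (Subgroup.closure (T : Set G)) X x = b)]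
        intro x
        simp
      · intro j
        have h2 := hf (e.symm ⟨b, j⟩)
        simp only [LinearMap.comp_apply] at h2
        rw [Equiv.apply_symm_apply] at h2
        exact h2
    let W : X → X → ℝ := fun x y => ∑ t ∈ T, ((if t • x = y then (f x - f y) ^ 2 else 0) +
      (if t • y = x then (f x - f y) ^ 2 else 0))
    have hW0 : ∀ x y, 0 ≤ W x y := by
      intro x y
      apply Finset.sum_nonneg
      intro t _
      apply add_nonneg <;> split_ifs <;> positivity
    have hW1 : ∀ b (x y : Ob T X b), (if (Gr T X b).Adj x y then (f x.1 - f y.1) ^ 2 else 0) ≤ W x.1 y.1 := by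
      intro b x y
      split_ifs with h
      · rw [Gr, SimpleGraph.fromRel_adj] at h
        have hn : ∀ t ∈ T, 0 ≤ ((if t • x.1 = y.1 then (f x.1 - f y.1) ^ 2 else 0) +
            (if t • y.1 = x.1 then (f x.1 - f y.1) ^ 2 else 0)) := by
          intro t _
          apply add_nonneg <;> split_ifs <;> positivity
        rcases h.2 with ⟨t, ht, h1⟩ | ⟨t, ht, h1⟩
        · refine le_trans ?_ (Finset.single_le_sum hn ht)
          rw [if_pos h1]
          have : (0 : ℝ) ≤ (if t • y.1 = x.1 then (f x.1 - f y.1) ^ 2 else 0) := by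
            split_ifs <;> positivity
          linarith
        · refine le_trans ?_ (Finset.single_le_sum hn ht)
          rw [if_pos h1]
          have : (0 : ℝ) ≤ (if t • x.1 = y.1 then (f x.1 - f y.1) ^ 2 else 0) := by
            split_ifs <;> positivity
          linarith
      · exact hW0 _ _
    have hW2 : ∀ b (x : Ob T X b), ∑ y : Ob T X b, W x.1 y.1 ≤ ∑ y, W x.1 y := by
      intro b x
      rw [hsum (fun y => W x.1 y)]
      exact Finset.single_le_sum (f := fun b' => ∑ y : Ob T X b', W x.1 y.1)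
        (fun b' _ => Finset.sum_nonneg fun y _ => hW0 _ _) (Finset.mem_univ b)
    have hW3 : ∑ x, ∑ y, W x y = 2 * ∑ t ∈ T, ∑ x, (f (t • x) - f x) ^ 2 := by
      simp only [W]
      simp_rw [Finset.sum_comm (s := univ) (t := T)]
      rw [Finset.mul_sum]
      apply Finset.sum_congr rfl
      intro t _
      simp_rw [Finset.sum_add_distrib]
      rw [two_mul]
      congr 1
      · apply Finset.sum_congr rfl
        intro x _
        rw [Finset.sum_ite_eq]
        simp only [Finset.mem_univ, if_true]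
        ring
      · rw [Finset.sum_comm]
        apply Finset.sum_congr rfl
        intro y _
        rw [Finset.sum_ite_eq]
        simp only [Finset.mem_univ, if_true]
    calc ∑ x, f x ^ 2 = ∑ b, ∑ x : Ob T X b, f x.1 ^ 2 := hsum _
      _ ≤ ∑ b, 4 * (L : ℝ) ^ 2 * ∑ x : Ob T X b, ∑ y, W x.1 y := by
        apply Finset.sum_le_sum
        intro b _
        refine (hW b).trans ?_
        apply mul_le_mul_of_nonneg_left _ (by positivity)
        apply Finset.sum_le_sum
        intro x _
        exact (Finset.sum_le_sum fun y _ => hW1 b x y).trans (hW2 b x)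
      _ = 4 * (L : ℝ) ^ 2 * ∑ x, ∑ y, W x y := by
        rw [← Finset.mul_sum, ← hsum (fun x => ∑ y, W x y)]
      _ = 8 * (L : ℝ) ^ 2 * ∑ t ∈ T, ∑ x, (f (t • x) - f x) ^ 2 := by
        rw [hW3]
        ring

end Pool.Agent.D0H52.AC
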