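import Pool.Agent.D0H83.AC.Stm2
import Pool.Agent.D0H8.AC.Lump

set_option autoImplicit false

/-! Project AC, module RED: facts about the reduced matrices. -/

namespace Pool.Agent.D0H52.AC

open Matrix hiding gram
open Finset Pool.Agent.Q181.TG Pool.Agent.D0H83.AC Pool.Agent.D0H8.AC

section red

variable {X Y : Type} [Fintype X] [Fintype Y] {s r : ℕ} (o : X → Y) (ρ : Y → X)

omit [Fintype Y] in
theorem sum_NR [Fintype (NR o ρ s)] {R : Type} [AddCommMonoid R] (g : X × Fin s → R)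
    (hg : ∀ x i, x = ρ (o x) → g (x, i) = 0) :
    ∑ p : NR o ρ s, g (p.1.1, p.2) = ∑ p, g p := by
  classical
  refine Fintype.sum_of_injective (fun p : NR o ρ s => ((p.1.1, p.2) : X × Fin s)) ?_ _ _ ?_ ?_
  · rintro ⟨⟨x, hx⟩, i⟩ ⟨⟨y, hy⟩, j⟩ h
    have h1 : x = y := congrArg Prod.fst h
    have h2 : i = j := congrArg Prod.snd h
    subst h1
    subst h2
    rfl
  · rintro ⟨x, i⟩ h
    apply hg
    by_contra h1
    exact h ⟨(⟨x, h1⟩, i), rfl⟩
  · intro p
    rfl

theorem vecMul_red (M : Matrix (X × Fin s) (X × Fin r) ℤ) (R : Type) [CommRing R]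
    (f : X × Fin s → R) (hf : f ∈ Zs o s R) [Fintype (NR o ρ s)] (q : NR o ρ r) :
    ∑ z, f z * (M z (q.1.1, q.2) : R) =
      ∑ p : NR o ρ s, f (p.1.1, p.2) * ((red o ρ M p q : ℤ) : R) := by
  classical
  have h1 : ∑ z, f z * (M z (q.1.1, q.2) : R) = ∑ p : X × Fin s, f p *
      ((M p (q.1.1, q.2) : ℤ) - (M (ρ (o p.1), p.2) (q.1.1, q.2) : ℤ) : R) := by
    have h2 := sum_root o R f hf (fun b i => ((M (ρ b, i) (q.1.1, q.2) : ℤ) : R))
    simp only [mul_sub, Finset.sum_sub_distrib]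
    rw [h2, sub_zero]
  rw [h1, ← sum_NR o ρ]
  · refine Finset.sum_congr rfl fun p _ => ?_
    unfold red
    push_cast
    rfl
  · intro x i hx
    change f (x, i) * ((M (x, i) (q.1.1, q.2) : R) - (M (ρ (o x), i) (q.1.1, q.2) : R)) = 0
    rw [← hx, sub_self, mul_zero]

omit [Fintype Y] in
theorem rowD_mem (hρ : ∀ b, o (ρ b) = b) (M : Matrix (X × Fin s) (X × Fin r) ℤ) (hL : Lump2 o M)
    (x : X) (i : Fin s) : (fun z => M (x, i) z - M (ρ (o x), i) z) ∈ Zs o r ℤ := by
  intro b j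
  rw [Finset.sum_sub_distrib, hL.1 x (ρ (o x)) i b j (hρ _).symm, sub_self]

/-- (a) -/
theorem red_mul {t : ℕ} (hρ : ∀ b, o (ρ b) = b) (M : Matrix (X × Fin s) (X × Fin r) ℤ)
    (M' : Matrix (X × Fin r) (X × Fin t) ℤ) (hL : Lump2 o M) {_ : Fintype (NR o ρ r)} :
    red o ρ (M * M') = red o ρ M * red o ρ M' := by
  classical
  ext p q
  have h := vecMul_red o ρ M' ℤ _ (rowD_mem o ρ hρ M hL p.1.1 p.2) q
  simp only [Int.cast_id] at h
  have h2 : red o ρ (M * M') p q = ∑ z, (M (p.1.1, p.2) z - M (ρ (o p.1.1), p.2) z) *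
      M' z (q.1.1, q.2) := by
    simp only [sub_mul, Finset.sum_sub_distrib]
    rfl
  rw [h2, h]
  rfl

open Classical in
omit [Fintype X] [Fintype Y] in
theorem gram_eq (p q : NR o ρ r) : gram o ρ r p q =
    (if p.2 = q.2 ∧ o p.1.1 = o q.1.1 then 1 else 0) + if p = q then 1 else 0 := by
  unfold gram
  by_cases h : p = q
  · subst h
    simp
  · rw [if_neg h, add_zero]
    by_cases h1 : p.2 = q.2 ∧ o p.1.1 = o q.1.1
    · rw [if_pos h1, if_pos h1, if_neg]
      intro h2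
      exact h (Prod.ext h2 h1.1)
    · rw [if_neg h1, if_neg h1]

open Classical in
omit [Fintype X] [Fintype Y] in
theorem gram_comm (p q : NR o ρ r) : gram o ρ r p q = gram o ρ r q p := by
  rw [gram_eq, gram_eq]
  have h1 : (p.2 = q.2 ∧ o p.1.1 = o q.1.1) ↔ (q.2 = p.2 ∧ o q.1.1 = o p.1.1) :=
    ⟨fun h => ⟨h.1.symm, h.2.symm⟩, fun h => ⟨h.1.symm, h.2.symm⟩⟩
  congr 1
  · exact if_congr h1 rfl rfl
  · exact if_congr ⟨Eq.symm, Eq.symm⟩ rfl rfl

theorem sum_gram (hρ : ∀ b, o (ρ b) = b) [Fintype (NR o ρ r)] (f : X × Fin r → ℤ)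
    (hf : f ∈ Zs o r ℤ) (q : NR o ρ r) :
    ∑ z : NR o ρ r, f (z.1.1, z.2) * gram o ρ r z q = f (q.1.1, q.2) - f (ρ (o q.1.1), q.2) := by
  classical
  simp only [gram_eq, mul_add, Finset.sum_add_distrib]
  have h1 : ∑ z : NR o ρ r, f (z.1.1, z.2) * (if z = q then (1 : ℤ) else 0) = f (q.1.1, q.2) := by
    rw [Finset.sum_eq_single q]
    · rw [if_pos rfl, mul_one]
    · intro z _ hz
      rw [if_neg hz, mul_zero]
    · intro h
      exact absurd (Finset.mem_univ _) h
  let c : X × Fin r → ℤ := fun z => f z * if z.2 = q.2 ∧ o z.1 = o q.1.1 then (1 : ℤ) else 0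
  have h2 : ∑ z, c z = 0 :=
    sum_root o ℤ f hf (fun b i => if i = q.2 ∧ b = o q.1.1 then (1 : ℤ) else 0)
  have h3 : ∑ z : NR o ρ r, f (z.1.1, z.2) *
      (if z.2 = q.2 ∧ o z.1.1 = o q.1.1 then (1 : ℤ) else 0) =
      ∑ z : X × Fin r, if z.1 = ρ (o z.1) then 0 else c z := by
    rw [← sum_NR o ρ]
    · refine Finset.sum_congr rfl fun z _ => ?_
      rw [if_neg z.1.2]
    · intro x i hx
      exact if_pos hx
  have h4 : ∑ z : X × Fin r, (if z.1 = ρ (o z.1) then 0 else c z) =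
      ∑ z, c z - ∑ z : X × Fin r, if z.1 = ρ (o z.1) then c z else 0 := by
    rw [← Finset.sum_sub_distrib]
    refine Finset.sum_congr rfl fun z _ => ?_
    split_ifs <;> simp
  have h5 : (∑ z : X × Fin r, if z.1 = ρ (o z.1) then c z else 0) = f (ρ (o q.1.1), q.2) := by
    rw [Finset.sum_eq_single (ρ (o q.1.1), q.2)]
    · simp [c, hρ]
    · rintro ⟨x, i⟩ _ hx
      by_cases h6 : x = ρ (o x)
      · rw [if_pos h6]
        change f (x, i) * (if i = q.2 ∧ o x = o q.1.1 then (1 : ℤ) else 0) = 0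
        rw [if_neg, mul_zero]
        rintro ⟨h7, h8⟩
        apply hx
        rw [h6, h8, h7]
      · exact if_neg h6
    · intro h
      exact absurd (Finset.mem_univ _) h
  rw [h1, h3, h4, h2, h5]
  ring

omit [Fintype Y] in
theorem lump2_transpose (M : Matrix (X × Fin s) (X × Fin r) ℤ) (hL : Lump2 o M) :
    Lump2 o Mᵀ :=
  ⟨fun y y' j b i h => hL.2 y y' j b i h, fun x x' i b j h => hL.1 x x' i b j h⟩

/-- (b) -/
theorem red_gram (hρ : ∀ b, o (ρ b) = b) (M : Matrix (X × Fin s) (X × Fin r) ℤ) (hL : Lump2 o M)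
    {_ : Fintype (NR o ρ r)} {_ : Fintype (NR o ρ s)} :
    red o ρ M * gram o ρ r = gram o ρ s * (red o ρ Mᵀ)ᵀ := by
  classical
  ext p q
  have h1 := sum_gram o ρ hρ _ (rowD_mem o ρ hρ M hL p.1.1 p.2) q
  have h2 := sum_gram o ρ hρ _ (rowD_mem o ρ hρ Mᵀ (lump2_transpose o M hL) q.1.1 q.2) p
  have h3 : (red o ρ M * gram o ρ r) p q = ∑ z, red o ρ M p z * gram o ρ r z q := rfl
  have h4 : (gram o ρ s * (red o ρ Mᵀ)ᵀ) p q = ∑ z, red o ρ Mᵀ q z * gram o ρ s z p := by
    change ∑ z, gram o ρ s p z * red o ρ Mᵀ q z = _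
    refine Finset.sum_congr rfl fun z _ => ?_
    rw [gram_comm o ρ p z, mul_comm]
  rw [h3, h4]
  refine (h1.trans ?_).trans h2.symm
  simp only [Matrix.transpose_apply]
  ring

open Classical in
/-- (c) -/
theorem det_gram (hρ : ∀ b, o (ρ b) = b) {_ : Fintype (NR o ρ r)} {_ : DecidableEq (NR o ρ r)} :
    (gram o ρ r).det = ∏ b : Y, (#{x | o x = b} : ℤ) ^ r := by
  let e := Fintype.equivFin (Y × Fin r)
  let b : NR o ρ r → Fin (Fintype.card (Y × Fin r)) := fun p => e (o p.1.1, p.2)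
  have hb : ∀ p q, b p = b q ↔ p.2 = q.2 ∧ o p.1.1 = o q.1.1 := by
    intro p q
    change e _ = e _ ↔ _
    rw [e.injective.eq_iff, Prod.mk.injEq, and_comm]
  have h1 : BlockTriangular (gram o ρ r) b := by
    intro p q hpq
    rw [gram_eq, if_neg, if_neg, add_zero]
    · rintro rfl
      exact lt_irrefl _ hpq
    · rw [← hb]
      exact hpq.ne'
  rw [h1.det_fintype]
  have h2 : ∀ k, ((gram o ρ r).toSquareBlock b k).det = (#{x | o x = (e.symm k).1} : ℤ) := by
    intro k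
    obtain ⟨⟨y, j⟩, rfl⟩ := e.surjective k
    rw [e.symm_apply_apply]
    have h3 : (gram o ρ r).toSquareBlock b (e (y, j)) =
        1 + replicateCol Unit (fun _ => (1 : ℤ)) * replicateRow Unit (fun _ => (1 : ℤ)) := by
      ext p q
      have h4 : b p.1 = b q.1 := p.2.trans q.2.symm
      rw [Matrix.add_apply, Matrix.mul_apply]
      change gram o ρ r p.1 q.1 = _
      rw [gram_eq, if_pos ((hb _ _).mp h4), Matrix.one_apply]
      by_cases h5 : p = q
      · subst h5
        simp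
      · rw [if_neg h5, if_neg (fun h => h5 (Subtype.ext h))]
        simp
    rw [h3, det_one_add_replicateCol_mul_replicateRow]
    have h6 : (fun _ => (1 : ℤ)) ⬝ᵥ (fun _ : {p : NR o ρ r // b p = e (y, j)} => (1 : ℤ)) =
        Fintype.card {p : NR o ρ r // b p = e (y, j)} := by
      simp [dotProduct]
    rw [h6]
    have h7 : Fintype.card {p : NR o ρ r // b p = e (y, j)} + 1 = #{x | o x = y} := by
      have h8 : ρ y ∈ Finset.univ.filter fun x => o x = y :=
        Finset.mem_filter.mpr ⟨Finset.mem_univ _, hρ y⟩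
      rw [← Finset.card_erase_add_one h8]
      congr 1
      rw [← Fintype.card_coe]
      refine Fintype.card_congr ⟨fun p => ⟨p.1.1.1, ?_⟩, fun x => ⟨(⟨x.1, ?_⟩, j), ?_⟩, ?_, ?_⟩
      · have h9 : (o p.1.1.1, p.1.2) = (y, j) := e.injective p.2
        have h10 : o p.1.1.1 = y := congrArg Prod.fst h9
        refine Finset.mem_erase.mpr ⟨?_, Finset.mem_filter.mpr ⟨Finset.mem_univ _, h10⟩⟩
        intro h11
        apply p.1.1.2
        rw [h10]
        exact h11
      · have h9 := Finset.mem_erase.mp x.2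
        rw [(Finset.mem_filter.mp h9.2).2]
        exact h9.1
      · have h9 := Finset.mem_erase.mp x.2
        change e (o x.1, j) = e (y, j)
        rw [(Finset.mem_filter.mp h9.2).2]
      · intro p
        have h9 : (o p.1.1.1, p.1.2) = (y, j) := e.injective p.2
        have h10 : p.1.2 = j := congrArg Prod.snd h9
        apply Subtype.ext
        exact Prod.ext rfl h10.symm
      · intro x
        rfl
    rw [← h7]
    push_cast
    ring
  simp only [h2]
  rw [← Equiv.prod_comp e (fun k => (#{x | o x = (e.symm k).1} : ℤ)), Fintype.prod_prod_type]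
  refine Finset.prod_congr rfl fun y _ => ?_
  simp only [Equiv.symm_apply_apply, Finset.prod_const, Finset.card_univ, Fintype.card_fin]

/-- (d) -/
theorem det_red (hρ : ∀ b, o (ρ b) = b) (M : Matrix (X × Fin r) (X × Fin r) ℤ)
    (h1 : ∀ f ∈ Zs o r ℝ, (M.map (Int.cast : ℤ → ℝ)).vecMulLinear f ∈ Zs o r ℝ)
    {_ : Fintype (NR o ρ r)} {_ : DecidableEq (NR o ρ r)} :
    LinearMap.det ((M.map (Int.cast : ℤ → ℝ)).vecMulLinear.restrict h1) =
      (((red o ρ M).det : ℤ) : ℝ) := by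
  rw [← LinearMap.det_conj _ (eZ o hρ ℝ)]
  have h2 : (eZ o hρ ℝ).toLinearMap ∘ₗ ((M.map (Int.cast : ℤ → ℝ)).vecMulLinear.restrict h1 ∘ₗ
      (eZ o hρ ℝ).symm.toLinearMap) = Matrix.toLin' ((red o ρ M).map (Int.cast : ℤ → ℝ))ᵀ := by
    apply LinearMap.ext
    intro g
    obtain ⟨f, rfl⟩ := (eZ o hρ ℝ).surjective g
    funext q
    rw [Matrix.toLin'_apply, Matrix.mulVec_transpose]
    simp only [LinearMap.coe_comp, LinearEquiv.coe_coe, Function.comp_apply,
      LinearEquiv.symm_apply_apply]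
    exact vecMul_red o ρ M ℝ f.1 f.2 q
  rw [h2, LinearMap.det_toLin', Matrix.det_transpose]
  exact (RingHom.map_det (Int.castRingHom ℝ) _).symm

end red

theorem lump2_reg {G : Type} [Group G] {r s : ℕ} (Λ : Subgroup G) [Λ.Normal]
    (A : Matrix (Fin s) (Fin r) (MonoidAlgebra ℤ G))
    (X : Type) [Fintype X] [MulAction G X] : Lump2 (ob Λ X) (reg X A) := by
  classical
  constructor
  · intro x x' i b j hxx'
    rw [sum_row, sum_row]
    refine Finset.sum_congr rfl fun h _ => ?_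
    simp only [ob_smul Λ X h⁻¹ x x' hxx']
    split_ifs <;> rfl
  · intro y y' j b i hyy'
    rw [sum_col, sum_col]
    refine Finset.sum_congr rfl fun h _ => ?_
    simp only [ob_smul Λ X h y y' hyy']
    split_ifs <;> rfl

theorem red : S_red := by
  classical
  refine ⟨?_, ?_⟩
  · intro X Y _ _ o ρ hρ
    refine ⟨?_, ?_, ?_, ?_⟩
    · intro s r t M M' hL _
      exact red_mul o ρ hρ M M' hL
    · intro s r M hL
      exact red_gram o ρ hρ M hL
    · intro r
      exact det_gram o ρ hρ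
    · intro r M hL h1
      rw [det_red o ρ hρ M h1]
  · intro G _ Λ _ s r A X _ _
    exact lump2_reg Λ A X

end Pool.Agent.D0H52.AC
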