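import Pool.Agent.D0H83.AC.Stm

/-!
# AC 11: from moments to continuous functions (helper52)
-/

set_option autoImplicit false

namespace Pool.Agent.D0H52.AC

open Filter Topology Finset Polynomial
open Pool.Agent.D0H83.AC Pool.Agent.Helper993.FK Pool.Agent.Q181.TG

theorem wei : S_wei := by
  intro G _ r A K N I _ lam hN hlam hcard hmom h hh
  have hT : 0 ≤ rMul ((A * adjZ A).map toQ) := by
    rw [Pool.Agent.TH630.Tor.mul_adjZ_toQ]
    exact rMul_self_nonneg _
  set T := rMul ((A * adjZ A).map toQ) with hTdef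
  have hK' : ‖T‖ ≤ max K ‖T‖ := le_max_right _ _
  have hpoly : ∀ p : ℝ[X], Tendsto (fun n => (∑ j, p.eval (lam n j)) / N n) atTop
      (𝓝 (traceVal unitVec T (fun x => p.eval x))) := by
    intro p
    have h1 : traceVal unitVec T (fun x => p.eval x)
        = ∑ m ∈ range (p.natDegree + 1), p.coeff m * traceVal unitVec T (fun x => x ^ m) := by
      rw [traceVal_aeval unitVec T hT p]
      apply Finset.sum_congr rfl
      intro m _
      congr 1
      have h2 : cfc (fun x : ℝ => x ^ m) T = T ^ m := by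
        rw [cfc_pow_id (R := ℝ) T m (IsSelfAdjoint.of_nonneg hT)]
      unfold traceVal
      rw [h2]
    rw [h1]
    have h2 : ∀ n, (∑ j, p.eval (lam n j)) / N n
        = ∑ m ∈ range (p.natDegree + 1), p.coeff m * ((∑ j, lam n j ^ m) / N n) := by
      intro n
      simp_rw [Polynomial.eval_eq_sum_range]
      rw [Finset.sum_comm, Finset.sum_div]
      apply Finset.sum_congr rfl
      intro m _
      rw [← Finset.mul_sum, mul_div_assoc]
    simp_rw [h2]
    exact tendsto_finsetSum _ fun m _ => (hmom m).const_mul _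
  rw [Metric.tendsto_atTop]
  intro ε hε
  obtain ⟨p, hp⟩ := exists_polynomial_near_of_continuousOn 0 (max K ‖T‖) h hh.continuousOn
    (ε / (4 * (r + 1))) (by positivity)
  have hp' : ∀ x ∈ Set.Icc 0 (max K ‖T‖), |h x - p.eval x| ≤ ε / (4 * (r + 1)) := by
    intro x hx
    rw [abs_sub_comm]
    exact (hp x hx).le
  have hb : (r : ℝ) * (ε / (4 * (r + 1))) ≤ ε / 4 := by
    rw [mul_div_assoc', div_le_div_iff₀ (by positivity) (by positivity)]
    nlinarith
  obtain ⟨n0, hn0⟩ := Metric.tendsto_atTop.1 (hpoly p) (ε / 4) (by positivity)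
  refine ⟨n0, fun n hn => ?_⟩
  have hNn : (0 : ℝ) < N n := by exact_mod_cast hN n
  have e1 : |(∑ j, h (lam n j)) / N n - (∑ j, p.eval (lam n j)) / N n| ≤ r * (ε / (4 * (r + 1))) := by
    rw [← sub_div, ← Finset.sum_sub_distrib, abs_div, abs_of_pos hNn, div_le_iff₀ hNn]
    have h3 : (Fintype.card (I n) : ℝ) ≤ r * N n := by exact_mod_cast hcard n
    have h4 : 0 ≤ ε / (4 * ((r : ℝ) + 1)) := by positivity
    calc |∑ j, (h (lam n j) - p.eval (lam n j))| ≤ ∑ j, |h (lam n j) - p.eval (lam n j)| :=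
          Finset.abs_sum_le_sum_abs _ _
      _ ≤ ∑ _j : I n, (ε / (4 * ((r : ℝ) + 1))) := by
          apply Finset.sum_le_sum
          intro j _
          exact hp' _ ⟨(hlam n j).1, (hlam n j).2.trans (le_max_left _ _)⟩
      _ = Fintype.card (I n) * (ε / (4 * ((r : ℝ) + 1))) := by simp
      _ ≤ (r * N n) * (ε / (4 * ((r : ℝ) + 1))) := mul_le_mul_of_nonneg_right h3 h4
      _ = r * (ε / (4 * (r + 1))) * N n := by ring
  have e2 := traceVal_near unitVec (fun j => (norm_unitVec j).le) T hT hK' hh p.continuous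
    (by positivity) hp'
  have e3 := hn0 n hn
  rw [Real.dist_eq] at e3 ⊢
  rw [abs_le] at e1 e2
  rw [abs_lt] at e3 ⊢
  constructor <;> linarith

end Pool.Agent.D0H52.AC
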